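import Pool.Agent.Helper62.IZ.FDE

/-!
An operator with a Lipschitz kernel (MP_7a8f48_an).
-/

open Finset Filter MeasureTheory Topology
open scoped ComplexConjugate InnerProductSpace

namespace Pool.Agent.Helper40.IZ

variable {M : Type} [MetricSpace M] [CompactSpace M] [MeasurableSpace M] [BorelSpace M]
  (μ : Measure M) [IsProbabilityMeasure μ]

/-- the smoothing operator -/
noncomputable def kopK {δ : ℝ} (hδ : 0 < δ) : Lp ℂ 2 μ →L[ℂ] C(M, ℂ) :=
  LinearMap.mkContinuous
    { toFun := fdeK μ δ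
      map_add' := fun h h' => ContinuousMap.ext fun m => fdeK_add μ δ h h' m
      map_smul' := fun c h => ContinuousMap.ext fun m => by
        simp only [fdeK_apply, inner_smul_right, RingHom.id_apply, ContinuousMap.coe_smul,
          Pi.smul_apply, smul_eq_mul] } δ fun h => by
    rw [ContinuousMap.norm_le _ (by positivity)]
    exact fun m => fdeK_norm μ hδ h m

theorem kopK_apply {δ : ℝ} (hδ : 0 < δ) (h : Lp ℂ 2 μ) : kopK μ hδ h = fdeK μ δ h := rfl

theorem kop_compact {δ : ℝ} (hδ : 0 < δ) : IsCompactOperator (kopK μ hδ) := by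
  set Φ := ContinuousMap.linearIsometryBoundedOfCompact M ℂ ℂ with hΦ
  set A : Set (BoundedContinuousFunction M ℂ) :=
    (fun h : Lp ℂ 2 μ => Φ (kopK μ hδ h)) '' Metric.closedBall 0 1 with hA
  have hAc : IsCompact (closure A) := by
    refine BoundedContinuousFunction.arzela_ascoli (Metric.closedBall 0 δ)
      (isCompact_closedBall 0 δ) A ?_ ?_
    · rintro _ m ⟨h, hh, rfl⟩
      rw [mem_closedBall_zero_iff] at hh ⊢
      calc ‖fdeK μ δ h m‖ ≤ δ * ‖h‖ := fdeK_norm μ hδ h m
        _ ≤ δ * 1 := by gcongr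
        _ = δ := mul_one _
    · intro m₀
      have hc : Continuous fun m : M => fdeL μ (fdeP δ m) := by fun_prop
      refine Metric.equicontinuousAt_of_continuity_modulus
        (fun m => ‖fdeL μ (fdeP δ m₀) - fdeL μ (fdeP δ m)‖) ?_ _ ?_
      · have h1 : Tendsto (fun m => ‖fdeL μ (fdeP δ m₀) - fdeL μ (fdeP δ m)‖) (𝓝 m₀)
            (𝓝 ‖fdeL μ (fdeP δ m₀) - fdeL μ (fdeP δ m₀)‖) :=
          ((continuous_const.sub hc).norm).tendsto m₀
        simpa using h1
      · refine Eventually.of_forall fun m => ?_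
        rintro ⟨_, h, hh, rfl⟩
        rw [mem_closedBall_zero_iff] at hh
        change dist (fdeK μ δ h m₀) (fdeK μ δ h m) ≤ _
        rw [dist_eq_norm, fdeK_apply, fdeK_apply, ← inner_sub_left]
        calc _ ≤ ‖fdeL μ (fdeP δ m₀) - fdeL μ (fdeP δ m)‖ * ‖h‖ := norm_inner_le_norm _ _
          _ ≤ ‖fdeL μ (fdeP δ m₀) - fdeL μ (fdeP δ m)‖ * 1 := by gcongr
          _ = _ := mul_one _
  refine ⟨Φ.symm '' closure A, hAc.image Φ.symm.continuous, ?_⟩
  refine Filter.mem_of_superset (Metric.closedBall_mem_nhds (0 : Lp ℂ 2 μ) one_pos) fun h hh => ?_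
  exact ⟨Φ (kopK μ hδ h), subset_closure ⟨h, hh, rfl⟩, Φ.symm_apply_apply _⟩

theorem kop_symm {δ : ℝ} (f g : Lp ℂ 2 μ) :
    (inner ℂ (fdeL μ (fdeK μ δ f)) g : ℂ) = inner ℂ f (fdeL μ (fdeK μ δ g)) := by
  have hf : Integrable (f : M → ℂ) μ := (Lp.memLp f).integrable (by norm_num)
  have hg : Integrable (g : M → ℂ) μ := (Lp.memLp g).integrable (by norm_num)
  have h1 : (inner ℂ (fdeL μ (fdeK μ δ f)) g : ℂ) =
      ∫ m, ∫ m', ((max 0 (δ - dist m m') : ℝ) : ℂ) * (conj ((f : M → ℂ) m') * (g : M → ℂ) m)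
        ∂μ ∂μ := by
    rw [L2.inner_def]
    refine integral_congr_ae ?_
    filter_upwards [fdeL_ae μ (fdeK μ δ f)] with m hm
    rw [hm, fdeK_int, RCLike.inner_apply, ← integral_conj, mul_comm, ← integral_mul_const]
    refine integral_congr_ae (Eventually.of_forall fun m' => ?_)
    simp only [map_mul, Complex.conj_ofReal]
    ring
  have h2 : (inner ℂ f (fdeL μ (fdeK μ δ g)) : ℂ) =
      ∫ m', ∫ m, ((max 0 (δ - dist m m') : ℝ) : ℂ) * (conj ((f : M → ℂ) m') * (g : M → ℂ) m)
        ∂μ ∂μ := by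
    rw [L2.inner_def]
    refine integral_congr_ae ?_
    filter_upwards [fdeL_ae μ (fdeK μ δ g)] with m' hm
    rw [hm, fdeK_int, RCLike.inner_apply, ← integral_mul_const]
    refine integral_congr_ae (Eventually.of_forall fun m => ?_)
    simp only [dist_comm m' m]
    ring
  rw [h1, h2]
  refine integral_integral_swap ?_
  have hfg : Integrable (fun z : M × M => (g : M → ℂ) z.1 * conj ((f : M → ℂ) z.2))
      (μ.prod μ) :=
    hg.mul_prod ((Complex.conjCLE : ℂ →L[ℝ] ℂ).integrable_comp hf)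
  have hc : Continuous fun z : M × M => ((max 0 (δ - dist z.1 z.2) : ℝ) : ℂ) := by fun_prop
  have h3 := hfg.bdd_mul (c := |δ|) hc.aestronglyMeasurable (Eventually.of_forall fun z => by
    rw [Complex.norm_real, Real.norm_of_nonneg (le_max_left _ _)]
    exact max_le (abs_nonneg _) (by
      linarith [le_abs_self δ, dist_nonneg (x := z.1) (y := z.2)]))
  refine h3.congr (Eventually.of_forall fun z => ?_)
  simp only [Function.uncurry]
  ring

theorem st_KOP : ST_KOP := by
  intro M _ _ _ _ μ _ δ hδ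
  refine ⟨fdeL μ ∘L kopK μ hδ, ?_, ?_, ?_⟩
  · exact (kop_compact μ hδ).clm_comp (fdeL μ)
  · intro f g
    exact kop_symm μ f g
  · intro h
    filter_upwards [fdeL_ae μ (fdeK μ δ h)] with m hm
    rw [ContinuousLinearMap.comp_apply, kopK_apply, hm, fdeK_int]

end Pool.Agent.Helper40.IZ
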