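import Pool.Agent.Helper40.IZ.Stmts

/-!
Approximation by finite dimensional invariant spaces (MP_7a8f48_an).
-/

open Finset Filter MeasureTheory Topology
open scoped ComplexConjugate InnerProductSpace

namespace Pool.Agent.Helper40.IZ

open Pool.Agent.Helper16.AZ (T E Op mm)

section hil

variable {H : Type} [NormedAddCommGroup H] [InnerProductSpace ℂ H]

theorem fde_basis (V : Submodule ℂ H) [FiniteDimensional ℂ V] :
    ∃ (d : ℕ) (b : Fin d → H), Orthonormal ℂ b ∧ (∀ i, b i ∈ V) ∧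
      ∀ v ∈ V, ∑ i, (inner ℂ (b i) v : ℂ) • b i = v := by
  refine ⟨_, fun i => (stdOrthonormalBasis ℂ V i : H), ?_, fun i => (stdOrthonormalBasis ℂ V i).2,
    ?_⟩
  · exact (stdOrthonormalBasis ℂ V).orthonormal.comp_linearIsometry V.subtypeₗᵢ
  · intro v hv
    have h := (stdOrthonormalBasis ℂ V).sum_repr' ⟨v, hv⟩
    have h2 := congrArg (fun z : V => (z : H)) h
    simpa using h2

/-- the coefficients -/
noncomputable def fdeC {d : ℕ} (b : Fin d → H) : H →L[ℂ] E d :=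
  LinearMap.toContinuousLinearMap (𝕜 := ℂ) (E := E d) (F' := E d) LinearMap.id ∘L
    (PiLp.continuousLinearEquiv 2 ℂ (fun _ : Fin d => ℂ)).symm.toContinuousLinearMap ∘L
      ContinuousLinearMap.pi fun i => innerSL ℂ (b i)

theorem fdeC_apply {d : ℕ} (b : Fin d → H) (h : H) :
    fdeC b h = WithLp.toLp 2 fun i => (inner ℂ (b i) h : ℂ) := by
  ext i
  simp [fdeC]

/-- the combinations -/
noncomputable def fdeJ {d : ℕ} (b : Fin d → H) : E d →L[ℂ] H :=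
  ∑ i, ContinuousLinearMap.smulRight (EuclideanSpace.proj i : E d →L[ℂ] ℂ) (b i)

theorem fdeJ_apply {d : ℕ} (b : Fin d → H) (c : E d) : fdeJ b c = ∑ i, c i • b i := by
  simp [fdeJ]

theorem fde_adj {d : ℕ} (b : Fin d → H) (c : E d) (h : H) :
    (inner ℂ (fdeJ b c) h : ℂ) = inner ℂ c (fdeC b h) := by
  rw [fdeJ_apply, fdeC_apply, sum_inner, PiLp.inner_apply]
  refine Finset.sum_congr rfl fun i _ => ?_
  rw [inner_smul_left]
  simp [mul_comm]

theorem fde_adj' {d : ℕ} (b : Fin d → H) (c : E d) (h : H) :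
    (inner ℂ h (fdeJ b c) : ℂ) = inner ℂ (fdeC b h) c := by
  rw [← inner_conj_symm, fde_adj, inner_conj_symm]

theorem fde_CJ {d : ℕ} {b : Fin d → H} (hb : Orthonormal ℂ b) (c : E d) :
    fdeC b (fdeJ b c) = c := by
  rw [fdeC_apply]
  ext i
  simp only [fdeJ_apply]
  exact hb.inner_right_fintype c i

theorem fde_JC {d : ℕ} {b : Fin d → H} {V : Submodule ℂ H}
    (hV : ∀ v ∈ V, ∑ i, (inner ℂ (b i) v : ℂ) • b i = v) {v : H} (hv : v ∈ V) :
    fdeJ b (fdeC b v) = v := by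
  rw [fdeJ_apply, fdeC_apply]
  exact hV v hv

theorem fde_mem {d : ℕ} {b : Fin d → H} {V : Submodule ℂ H} (hbV : ∀ i, b i ∈ V) (c : E d) :
    fdeJ b c ∈ V := by
  rw [fdeJ_apply]
  exact V.sum_mem fun i _ => V.smul_mem _ (hbV i)

theorem fde_unitary [CompleteSpace H] {d : ℕ} {b : Fin d → H} (hb : Orthonormal ℂ b) {V : Submodule ℂ H}
    (hbV : ∀ i, b i ∈ V) (hV : ∀ v ∈ V, ∑ i, (inner ℂ (b i) v : ℂ) • b i = v)
    (U U' : H →L[ℂ] H) (h1 : ∀ x y, (inner ℂ (U x) y : ℂ) = inner ℂ x (U' y))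
    (h2 : ∀ x, U (U' x) = x) (h3 : ∀ x, U' (U x) = x) (hU : ∀ v ∈ V, U v ∈ V)
    (hU' : ∀ v ∈ V, U' v ∈ V) :
    ∃ R ∈ unitary (Op d), ∀ h, fdeC b (U h) = R (fdeC b h) := by
  have hstar : star (fdeC b ∘L U ∘L fdeJ b : Op d) = fdeC b ∘L U' ∘L fdeJ b := by
    rw [ContinuousLinearMap.star_eq_adjoint]
    symm
    rw [ContinuousLinearMap.eq_adjoint_iff]
    intro x y
    simp only [ContinuousLinearMap.comp_apply]
    rw [← fde_adj', ← fde_adj, ← inner_conj_symm, ← h1, inner_conj_symm]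
  refine ⟨fdeC b ∘L U ∘L fdeJ b, ?_, ?_⟩
  · rw [Unitary.mem_iff, hstar]
    constructor
    · ext1 c
      simp only [mul_apply_eq_comp, ContinuousLinearMap.comp_apply,
        one_apply_eq_self]
      rw [fde_JC hV (hU _ (fde_mem hbV c)), h3, fde_CJ hb]
    · ext1 c
      simp only [mul_apply_eq_comp, ContinuousLinearMap.comp_apply,
        one_apply_eq_self]
      rw [fde_JC hV (hU' _ (fde_mem hbV c)), h2, fde_CJ hb]
  · intro h
    simp only [ContinuousLinearMap.comp_apply]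
    have hperp : ∀ v ∈ V, (inner ℂ v (h - fdeJ b (fdeC b h)) : ℂ) = 0 := by
      intro v hv
      rw [← fde_JC hV hv, fde_adj, map_sub, fde_CJ hb, sub_self, inner_zero_right]
    have hz : fdeC b (U (h - fdeJ b (fdeC b h))) = 0 := by
      rw [fdeC_apply]
      ext i
      simp only [PiLp.zero_apply]
      rw [← inner_conj_symm, h1, inner_conj_symm]
      exact hperp _ (hU' _ (hbV i))
    have : fdeC b (U h) - fdeC b (U (fdeJ b (fdeC b h))) = 0 := by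
      rw [← map_sub, ← map_sub, hz]
    exact sub_eq_zero.mp this

end hil

section ker

variable {M : Type} [MetricSpace M] [CompactSpace M]

/-- the kernel -/
noncomputable def fdeP (δ : ℝ) : C(M, C(M, ℂ)) :=
  ContinuousMap.curry ⟨fun q : M × M => ((max 0 (δ - dist q.1 q.2) : ℝ) : ℂ), by fun_prop⟩

theorem fdeP_apply (δ : ℝ) (m m' : M) : fdeP δ m m' = ((max 0 (δ - dist m m') : ℝ) : ℂ) := rfl

theorem fdeP_norm {δ : ℝ} (hδ : 0 < δ) (m : M) : ‖fdeP δ m‖ ≤ δ := by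
  rw [ContinuousMap.norm_le _ hδ.le]
  intro m'
  rw [fdeP_apply, Complex.norm_real, Real.norm_of_nonneg (le_max_left _ _)]
  exact max_le hδ.le (by linarith [dist_nonneg (x := m) (y := m')])

variable [MeasurableSpace M] [BorelSpace M] (μ : Measure M) [IsProbabilityMeasure μ]

/-- the class of a continuous function -/
noncomputable def fdeL : C(M, ℂ) →L[ℂ] Lp ℂ 2 μ := ContinuousMap.toLp 2 μ ℂ

theorem fdeL_ae (f : C(M, ℂ)) : (fdeL μ f : M → ℂ) =ᵐ[μ] f := ContinuousMap.coeFn_toLp μ f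

theorem fdeL_norm (f : C(M, ℂ)) : ‖fdeL μ f‖ ≤ ‖f‖ := by
  have h := ContinuousMap.toLp_norm_le (α := M) (E := ℂ) (p := 2) μ (𝕜 := ℂ)
  have h2 := (fdeL μ).le_opNorm f
  simp only [measureUnivNNReal, measure_univ] at h
  have h3 : ‖fdeL μ‖ ≤ 1 := by simpa [fdeL] using h
  calc _ ≤ _ := h2
    _ ≤ 1 * ‖f‖ := by gcongr
    _ = _ := one_mul _

/-- the smooth version of a function -/
noncomputable def fdeK (δ : ℝ) (h : Lp ℂ 2 μ) : C(M, ℂ) :=
  ⟨fun m => inner ℂ (fdeL μ (fdeP δ m)) h, by fun_prop⟩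

theorem fdeK_apply (δ : ℝ) (h : Lp ℂ 2 μ) (m : M) :
    fdeK μ δ h m = inner ℂ (fdeL μ (fdeP δ m)) h := rfl

theorem fdeK_int (δ : ℝ) (h : Lp ℂ 2 μ) (m : M) :
    fdeK μ δ h m = ∫ m', ((max 0 (δ - dist m m') : ℝ) : ℂ) * (h : M → ℂ) m' ∂μ := by
  rw [fdeK_apply, L2.inner_def]
  refine integral_congr_ae ?_
  filter_upwards [fdeL_ae μ (fdeP δ m)] with m' h1
  rw [h1, fdeP_apply]
  simp [mul_comm]

theorem fdeK_norm {δ : ℝ} (hδ : 0 < δ) (h : Lp ℂ 2 μ) (m : M) : ‖fdeK μ δ h m‖ ≤ δ * ‖h‖ := by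
  rw [fdeK_apply]
  calc _ ≤ ‖fdeL μ (fdeP δ m)‖ * ‖h‖ := norm_inner_le_norm _ _
    _ ≤ δ * ‖h‖ := by
      gcongr
      exact (fdeL_norm μ _).trans (fdeP_norm hδ m)

theorem fdeK_L (δ : ℝ) (f : C(M, ℂ)) (m : M) :
    fdeK μ δ (fdeL μ f) m = ∫ m', ((max 0 (δ - dist m m') : ℝ) : ℂ) * f m' ∂μ := by
  rw [fdeK_int]
  refine integral_congr_ae ?_
  filter_upwards [fdeL_ae μ f] with m' h1
  rw [h1]

/-- the total mass of the kernel -/
noncomputable def fdeB (δ : ℝ) (m : M) : ℝ := ∫ m', max 0 (δ - dist m m') ∂μ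

theorem fdeB_int (δ : ℝ) (m : M) : Integrable (fun m' => max 0 (δ - dist m m')) μ := by
  have h : Continuous fun m' : M => max 0 (δ - dist m m') := by fun_prop
  exact h.integrable_of_hasCompactSupport (HasCompactSupport.of_compactSpace _)

theorem fdeB_pos (hμ : ∀ U : Set M, IsOpen U → U.Nonempty → 0 < μ U) {δ : ℝ} (hδ : 0 < δ)
    (m : M) : 0 < fdeB μ δ m := by
  rw [fdeB]
  refine (integral_pos_iff_support_of_nonneg (f := fun m' => max 0 (δ - dist m m'))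
    (fun _ => le_max_left _ _) (fdeB_int μ δ m)).mpr ?_
  refine (hμ (Metric.ball m δ) Metric.isOpen_ball ⟨m, Metric.mem_ball_self hδ⟩).trans_le
    (measure_mono fun m' hm' => ?_)
  rw [Metric.mem_ball, dist_comm] at hm'
  rw [Function.mem_support]
  exact (lt_max_of_lt_right (by linarith)).ne'

theorem fdeB_eq (δ : ℝ) (m : M) : fdeK μ δ (fdeL μ 1) m = (fdeB μ δ m : ℂ) := by
  rw [fdeK_L, fdeB, ← integral_complex_ofReal]
  simp

theorem fdeB_bd [Nonempty M] (hμ : ∀ U : Set M, IsOpen U → U.Nonempty → 0 < μ U) {δ : ℝ}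
    (hδ : 0 < δ) : ∃ b₀ : ℝ, 0 < b₀ ∧ ∀ m, b₀ ≤ fdeB μ δ m := by
  have hc : Continuous (fdeB μ δ) := by
    have h : fdeB μ δ = fun m => (fdeK μ δ (fdeL μ 1) m).re := by
      ext m
      rw [fdeB_eq, Complex.ofReal_re]
    rw [h]
    fun_prop
  obtain ⟨m₀, -, hm₀⟩ := isCompact_univ.exists_isMinOn Set.univ_nonempty hc.continuousOn
  exact ⟨fdeB μ δ m₀, fdeB_pos μ hμ hδ m₀, fun m => hm₀ (Set.mem_univ m)⟩

theorem fde_near {δ ε : ℝ} {f : C(M, ℂ)}
    (hf : ∀ m m' : M, dist m m' < δ → ‖f m - f m'‖ ≤ ε) (m : M) :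
    ‖(fdeB μ δ m : ℂ) * f m - fdeK μ δ (fdeL μ f) m‖ ≤ fdeB μ δ m * ε := by
  have hc : Continuous fun m' : M => ((max 0 (δ - dist m m') : ℝ) : ℂ) := by fun_prop
  have h1 : (fdeB μ δ m : ℂ) * f m = ∫ m', ((max 0 (δ - dist m m') : ℝ) : ℂ) * f m ∂μ := by
    rw [integral_mul_const, fdeB, ← integral_complex_ofReal]
  rw [fdeK_L, h1, ← integral_sub, fdeB, ← integral_mul_const]
  · refine norm_integral_le_of_norm_le ((fdeB_int μ δ m).mul_const ε)
      (Eventually.of_forall fun m' => ?_)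
    rw [← mul_sub, norm_mul, Complex.norm_real, Real.norm_of_nonneg (le_max_left _ _)]
    by_cases h : dist m m' < δ
    · gcongr
      · exact hf m m' h
    · rw [max_eq_left (by linarith), zero_mul, zero_mul]
  · exact (hc.mul continuous_const).integrable_of_hasCompactSupport
      (HasCompactSupport.of_compactSpace _)
  · exact (hc.mul f.continuous).integrable_of_hasCompactSupport
      (HasCompactSupport.of_compactSpace _)

theorem fde_equi {K : Set C(M, ℂ)} (hK : IsCompact K) {ε : ℝ} (hε : 0 < ε) :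
    ∃ δ : ℝ, 0 < δ ∧ ∀ f ∈ K, ∀ m m' : M, dist m m' < δ → ‖f m - f m'‖ ≤ ε := by
  have hc : Continuous fun q : C(M, ℂ) × M => q.1 q.2 := by fun_prop
  have hu := (hK.prod (isCompact_univ (X := M))).uniformContinuousOn_of_continuous hc.continuousOn
  rw [Metric.uniformContinuousOn_iff] at hu
  obtain ⟨δ, hδ, h⟩ := hu ε hε
  refine ⟨δ, hδ, fun f hf m m' hmm => ?_⟩
  have h2 := h (f, m) ⟨hf, trivial⟩ (f, m') ⟨hf, trivial⟩ (by
    rw [Prod.dist_eq, dist_self]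
    exact max_lt hδ hmm)
  rw [dist_eq_norm] at h2
  exact h2.le

theorem fdeL_inner (f g : C(M, ℂ)) :
    (inner ℂ (fdeL μ f) (fdeL μ g) : ℂ) = ∫ m, conj (f m) * g m ∂μ := by
  rw [fdeL, ContinuousMap.inner_toLp]
  simp only [mul_comm]

/-- composition with an isometry -/
noncomputable def fdeU (k : M ≃ᵢ M) (hk : MeasurePreserving k μ μ) : Lp ℂ 2 μ →L[ℂ] Lp ℂ 2 μ :=
  (Lp.compMeasurePreservingₗᵢ ℂ k hk).toContinuousLinearMap

theorem fdeU_ae (k : M ≃ᵢ M) (hk : MeasurePreserving k μ μ) (h : Lp ℂ 2 μ) :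
    (fdeU μ k hk h : M → ℂ) =ᵐ[μ] fun m => (h : M → ℂ) (k m) :=
  Lp.coeFn_compMeasurePreserving h hk

theorem fdeU_L (k : M ≃ᵢ M) (hk : MeasurePreserving k μ μ) (f : C(M, ℂ)) :
    fdeU μ k hk (fdeL μ f) = fdeL μ (f.comp ⟨k, k.continuous⟩) := by
  apply Lp.ext
  have h1 := hk.quasiMeasurePreserving.ae (fdeL_ae μ f)
  filter_upwards [fdeU_ae μ k hk (fdeL μ f), h1, fdeL_ae μ (f.comp ⟨k, k.continuous⟩)]
    with m h2 h3 h4
  rw [h2, h3, h4]
  rfl

theorem fdeU_symm (k : M ≃ᵢ M) (hk : MeasurePreserving k μ μ)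
    (hk' : MeasurePreserving k.symm μ μ) (h : Lp ℂ 2 μ) :
    fdeU μ k hk (fdeU μ k.symm hk' h) = h := by
  apply Lp.ext
  have h1 := hk.quasiMeasurePreserving.ae (fdeU_ae μ k.symm hk' h)
  filter_upwards [fdeU_ae μ k hk (fdeU μ k.symm hk' h), h1] with m h2 h3
  rw [h2, h3, k.symm_apply_apply]

theorem fdeU_symm' (k : M ≃ᵢ M) (hk : MeasurePreserving k μ μ)
    (hk' : MeasurePreserving k.symm μ μ) (h : Lp ℂ 2 μ) :
    fdeU μ k.symm hk' (fdeU μ k hk h) = h := by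
  apply Lp.ext
  have h1 := hk'.quasiMeasurePreserving.ae (fdeU_ae μ k hk h)
  filter_upwards [fdeU_ae μ k.symm hk' (fdeU μ k hk h), h1] with m h2 h3
  rw [h2, h3, k.apply_symm_apply]

theorem fdeU_adj (k : M ≃ᵢ M) (hk : MeasurePreserving k μ μ)
    (hk' : MeasurePreserving k.symm μ μ) (x y : Lp ℂ 2 μ) :
    (inner ℂ (fdeU μ k hk x) y : ℂ) = inner ℂ x (fdeU μ k.symm hk' y) := by
  conv_lhs => rw [← fdeU_symm μ k hk hk' y]
  exact (Lp.compMeasurePreservingₗᵢ ℂ k hk).inner_map_map x _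

theorem fdeK_U (δ : ℝ) (k : M ≃ᵢ M) (hk : MeasurePreserving k μ μ)
    (hk' : MeasurePreserving k.symm μ μ) (h : Lp ℂ 2 μ) (m : M) :
    fdeK μ δ (fdeU μ k hk h) m = fdeK μ δ h (k m) := by
  rw [fdeK_apply, fdeK_apply, ← inner_conj_symm, fdeU_adj μ k hk hk', inner_conj_symm, fdeU_L]
  congr 2
  ext m'
  simp only [fdeP_apply, ContinuousMap.comp_apply, ContinuousMap.coe_mk]
  rw [← k.dist_eq m (k.symm m'), k.apply_symm_apply]

theorem fdeK_add (δ : ℝ) (h h' : Lp ℂ 2 μ) (m : M) :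
    fdeK μ δ (h + h') m = fdeK μ δ h m + fdeK μ δ h' m := by
  simp only [fdeK_apply, inner_add_right]

theorem fdeK_sum (δ : ℝ) {d : ℕ} (c : E d) (b : Fin d → Lp ℂ 2 μ) (m : M) :
    fdeK μ δ (∑ i, c i • b i) m = ∑ i, c i * fdeK μ δ (b i) m := by
  simp only [fdeK_apply, inner_sum, inner_smul_right]

end ker

theorem st_FDE (hKOP : ST_KOP) (hSPC : ST_SPC) : ST_FDE := by
  intro M _ _ _ _ μ _ hμ hinv K hK ε hε
  have hne : Nonempty M := by
    by_contra hne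
    rw [not_nonempty_iff] at hne
    have h1 := measure_univ (μ := μ)
    rw [Set.univ_eq_empty_iff.mpr hne, measure_empty] at h1
    exact zero_ne_one h1
  have : Measure.IsOpenPosMeasure μ := ⟨fun U hU hn => (hμ U hU hn).ne'⟩
  obtain ⟨δ, hδ, hδK⟩ := fde_equi hK (half_pos hε)
  obtain ⟨b₀, hb₀, hb₀'⟩ := fdeB_bd μ hμ hδ
  obtain ⟨P, hPc, hPs, hP⟩ := hKOP M μ δ hδ
  have hPK : ∀ h : Lp ℂ 2 μ, P h = fdeL μ (fdeK μ δ h) := by
    intro h
    apply Lp.ext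
    filter_upwards [hP h, fdeL_ae μ (fdeK μ δ h)] with m h1 h2
    rw [h1, h2, fdeK_int]
  have hinj : ∀ f g : C(M, ℂ), fdeL μ f = fdeL μ g → f = g := by
    intro f g hfg
    have h1 : (f : M → ℂ) =ᵐ[μ] g := by
      filter_upwards [fdeL_ae μ f, fdeL_ae μ g] with m h2 h3
      rw [← h2, ← h3, hfg]
    exact ContinuousMap.ext fun m => congrFun
      ((Continuous.ae_eq_iff_eq μ f.continuous g.continuous).mp h1) m
  have hη : 0 < b₀ * ε / (2 * δ) := by positivity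
  obtain ⟨V, hVf, hV1, hV2, hV3⟩ := hSPC (Lp ℂ 2 μ) P hPc hPs (fdeL μ '' K)
    (hK.image (fdeL μ).continuous) _ hη
  have := hVf
  obtain ⟨d, b, hb, hbV, hbs⟩ := fde_basis V
  choose v' hv'V hv' using fun i => hV1 (b i) (hbV i)
  set e : Fin d → C(M, ℂ) := fun i => fdeK μ δ (v' i) with he
  have heb : ∀ i, fdeL μ (e i) = b i := fun i => by rw [he, ← hPK, hv']
  have hcf : ∀ f : C(M, ℂ), cf μ e f = fdeC b (fdeL μ f) := by
    intro f
    rw [fdeC_apply, cf]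
    congr 1
    ext i
    rw [← heb, fdeL_inner]
  refine ⟨d, e, fun m => WithLp.toLp 2 fun i => (fdeB μ δ m : ℂ)⁻¹ * conj (fdeK μ δ (b i) m),
    ⟨?_, ?_⟩, ?_⟩
  · intro i j
    rw [← fdeL_inner, heb, heb, orthonormal_iff_ite.mp hb]
  · intro k
    have hk := hinv k
    have hk' := hinv k.symm
    have hcomm : ∀ (k : M ≃ᵢ M) (hk : MeasurePreserving k μ μ)
        (hk' : MeasurePreserving k.symm μ μ) (h : Lp ℂ 2 μ),
        fdeU μ k hk (P h) = P (fdeU μ k hk h) := by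
      intro k hk hk' h
      rw [hPK, hPK, fdeU_L]
      congr 1
      ext m
      rw [fdeK_U μ δ k hk hk']
      rfl
    obtain ⟨R, hR, hR'⟩ := fde_unitary hb hbV hbs (fdeU μ k hk) (fdeU μ k.symm hk')
      (fdeU_adj μ k hk hk') (fdeU_symm μ k hk hk') (fdeU_symm' μ k hk hk')
      (hV2 _ (hcomm k hk hk')) (hV2 _ (hcomm k.symm hk' hk))
    refine ⟨R, hR, fun f => ?_⟩
    rw [hcf, ← hR', fdeU_L, ← hcf]
    rfl
  · intro f hf m
    obtain ⟨g, hg, h₀, hh₀, hperp, hnorm⟩ := hV3 (fdeL μ f) ⟨f, hf, rfl⟩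
    have hK0 : fdeK μ δ h₀ = 0 := hinj _ _ (by rw [← hPK, hh₀, map_zero])
    have hg' : g = ∑ i, (fdeC b (fdeL μ f)) i • b i := by
      conv_lhs => rw [← hbs g hg]
      refine Finset.sum_congr rfl fun i _ => ?_
      congr 1
      rw [fdeC_apply]
      have h1 := hperp (b i) (hbV i)
      rw [inner_sub_right, sub_eq_zero] at h1
      exact h1.symm
    have hbm : 0 < fdeB μ δ m := hb₀.trans_le (hb₀' m)
    have hbm' : (fdeB μ δ m : ℂ) ≠ 0 := by exact_mod_cast hbm.ne'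
    have hin : (inner ℂ (WithLp.toLp 2 fun i => (fdeB μ δ m : ℂ)⁻¹ * conj (fdeK μ δ (b i) m) : E d)
        (cf μ e f) : ℂ) = (fdeB μ δ m : ℂ)⁻¹ * fdeK μ δ g m := by
      rw [hcf, hg', fdeK_sum, PiLp.inner_apply, Finset.mul_sum]
      refine Finset.sum_congr rfl fun i _ => ?_
      simp only [RCLike.inner_apply, map_mul, map_inv₀, Complex.conj_ofReal, RCLike.conj_conj]
      ring
    have hdec : fdeK μ δ (fdeL μ f) m - fdeK μ δ g m = fdeK μ δ (fdeL μ f - g - h₀) m := by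
      have h1 : fdeL μ f = (fdeL μ f - g - h₀) + (g + h₀) := by abel
      conv_lhs => rw [h1]
      rw [fdeK_add, fdeK_add, hK0]
      simp
    have h2 : ‖fdeK μ δ (fdeL μ f) m - fdeK μ δ g m‖ ≤ b₀ * ε / 2 := by
      rw [hdec]
      calc _ ≤ δ * ‖fdeL μ f - g - h₀‖ := fdeK_norm μ hδ _ m
        _ ≤ δ * (b₀ * ε / (2 * δ)) := by gcongr
        _ = b₀ * ε / 2 := by field_simp
    have h3 := fde_near μ (hδK f hf) m
    have h4 : f m - (fdeB μ δ m : ℂ)⁻¹ * fdeK μ δ g m = (fdeB μ δ m : ℂ)⁻¹ *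
        (((fdeB μ δ m : ℂ) * f m - fdeK μ δ (fdeL μ f) m) +
          (fdeK μ δ (fdeL μ f) m - fdeK μ δ g m)) := by
      field_simp
      ring
    rw [hin, h4, norm_mul, norm_inv, Complex.norm_real, Real.norm_of_nonneg hbm.le,
      inv_mul_le_iff₀ hbm]
    calc _ ≤ _ := norm_add_le _ _
      _ ≤ fdeB μ δ m * (ε / 2) + b₀ * ε / 2 := add_le_add h3 h2
      _ ≤ fdeB μ δ m * (ε / 2) + fdeB μ δ m * ε / 2 := by gcongr; exact hb₀' m
      _ = fdeB μ δ m * ε := by ring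

end Pool.Agent.Helper40.IZ
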